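import Pool.Agent.H26.LP.Stm
import Pool.Graph.R_pool_sql_team_seeded_3997aac3.Q16.TR.L2B

/-! Project LP (helper26), module LOW: the lower bound. -/

set_option autoImplicit false

namespace Pool.Agent.H84.LP

open Filter Topology
open Pool.Agent.Q130.TR Pool.Agent.Q130.TC Pool.Agent.Q16.TR.L2B Pool.Agent.H26.LP
open Pool.Agent.H50.SM (df)

/-- the transposed matrix -/
def sw (A : ℕ → ℕ → ℂ) (j i : ℕ) : ℂ := A i j

theorem hs_sw (A : ℕ → ℕ → ℂ) : hs (sw A) = hs A := by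
  unfold hs
  congr 1
  exact (Equiv.prodComm ℕ ℕ).tsum_eq (fun p : ℕ × ℕ => ‖A p.1 p.2‖ ^ 2)

theorem HS_sw {A : ℕ → ℕ → ℂ} (h : HS A) : HS (sw A) := hs_swap h

theorem HS_df {A B : ℕ → ℕ → ℂ} (hA : HS A) (hB : HS B) : HS (df A B) := by
  refine Summable.of_nonneg_of_le (fun _ => by positivity) (fun p => ?_)
    ((Summable.mul_left 2 hA).add (Summable.mul_left 2 hB))
  have h := norm_sub_le (A p.1 p.2) (B p.1 p.2)
  show ‖A p.1 p.2 - B p.1 p.2‖ ^ 2 ≤ 2 * ‖A p.1 p.2‖ ^ 2 + 2 * ‖B p.1 p.2‖ ^ 2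
  nlinarith [sq_nonneg (‖A p.1 p.2‖ - ‖B p.1 p.2‖), norm_nonneg (A p.1 p.2 - B p.1 p.2),
    norm_nonneg (A p.1 p.2), norm_nonneg (B p.1 p.2)]

theorem sq_shift {c : ℕ → ℂ} (h : Sq c) (m : ℕ) : Sq (fun j => c (j + m)) :=
  (summable_nat_add_iff (f := fun j => ‖c j‖ ^ 2) m).2 h

theorem n2_shift_le {c : ℕ → ℂ} (h : Sq c) (m : ℕ) : n2 (fun j => c (j + m)) ≤ n2 c := by
  apply n2_le (n2_nonneg _)
  rw [n2_sq]
  have h1 := Summable.sum_add_tsum_nat_add (f := fun j => ‖c j‖ ^ 2) m h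
  have h2 : 0 ≤ ∑ i ∈ Finset.range m, ‖c i‖ ^ 2 := Finset.sum_nonneg fun _ _ => by positivity
  linarith

theorem low : S_LOW := by
  intro F hF h0
  obtain ⟨s, hs⟩ : ∃ s : ℝ, s = ‖F 0 0‖ := ⟨_, rfl⟩
  have hs0 : 0 < s := by rw [hs]; exact norm_pos_iff.2 h0
  obtain ⟨R, hR⟩ : ∃ R : ℝ, R = n2 (fun i => F i 0) := ⟨_, rfl⟩
  have hR0 : 0 ≤ R := by rw [hR]; exact n2_nonneg _
  obtain ⟨θ, hθ⟩ : ∃ θ : ℝ, θ = min (1 / 2) (s / (8 * (R + 1))) := ⟨_, rfl⟩
  have hθ0 : 0 < θ := by rw [hθ]; exact lt_min (by norm_num) (by positivity)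
  have hθ1 : θ ≤ 1 / 2 := by rw [hθ]; exact min_le_left _ _
  have hθ2 : θ * (R + 1) ≤ s / 8 := by
    have h1 : θ ≤ s / (8 * (R + 1)) := by rw [hθ]; exact min_le_right _ _
    calc θ * (R + 1) ≤ s / (8 * (R + 1)) * (R + 1) := by gcongr
      _ = s / 8 := by field_simp
  have hc := cols hF
  have ht := tendsto_sum_nat_add (fun j => ∑' i, ‖F i j‖ ^ 2)
  obtain ⟨k, hk⟩ : ∃ k : ℕ, ∑' j, (∑' i, ‖F i (j + (k + 1))‖ ^ 2) ≤ (θ / 4) ^ 2 := by
    have hev := ht.eventually (Iio_mem_nhds (show (0 : ℝ) < (θ / 4) ^ 2 by positivity))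
    obtain ⟨m, hm⟩ := hev.exists_forall_of_atTop
    exact ⟨m, le_of_lt (hm (m + 1) (Nat.le_succ m))⟩
  have hk1 : (0 : ℝ) < (k : ℝ) + 1 := by positivity
  refine ⟨k, min (θ / 4) (s / 8), min (θ / (4 * (k + 1))) (s / 16), lt_min (by positivity)
    (by positivity), lt_min (by positivity) (by positivity), ?_⟩
  obtain ⟨κ, hκ⟩ : ∃ κ : ℝ, κ = min (θ / 4) (s / 8) := ⟨_, rfl⟩
  obtain ⟨η, hη⟩ : ∃ η : ℝ, η = min (θ / (4 * (k + 1))) (s / 16) := ⟨_, rfl⟩
  rw [← hκ, ← hη]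
  have hκ1 : κ ≤ θ / 4 := by rw [hκ]; exact min_le_left _ _
  have hκ2 : κ ≤ s / 8 := by rw [hκ]; exact min_le_right _ _
  have hη0 : 0 < η := by rw [hη]; exact lt_min (by positivity) (by positivity)
  have hη1 : (k + 1) * η ≤ θ / 4 := by
    have h1 : η ≤ θ / (4 * (k + 1)) := by rw [hη]; exact min_le_left _ _
    calc (k + 1) * η ≤ (k + 1) * (θ / (4 * (k + 1))) := by gcongr
      _ = θ / 4 := by field_simp
  have hη2 : η ≤ s / 16 := by rw [hη]; exact min_le_right _ _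
  intro F₁ hF₁ hd b hb hb1 hRK
  by_contra hcon
  push Not at hcon
  have hD : HS (df F₁ F) := HS_df hF₁ hF
  obtain ⟨g, hg⟩ : ∃ g : ℕ → ℂ, g = act (sw F) b := ⟨_, rfl⟩
  obtain ⟨d, hdd⟩ : ∃ d : ℕ → ℂ, d = act (sw (df F₁ F)) b := ⟨_, rfl⟩
  have hgs : Sq g := by rw [hg]; exact sq_act (HS_sw hF) hb
  have hds : Sq d := by rw [hdd]; exact sq_act (HS_sw hD) hb
  have hgd : ∀ j, ∑' i, F₁ i j * b i = g j + d j := by
    intro j
    rw [hg, hdd]
    unfold act sw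
    rw [← Summable.tsum_add (summ (col hF j) hb) (summ (col hD j) hb)]
    apply tsum_congr
    intro i
    unfold df
    ring
  have hdn : n2 d ≤ κ := by
    rw [hdd]
    refine (n2_act (HS_sw hD) hb).trans ?_
    rw [hb1, mul_one, hs_sw]
    exact hd
  have hb' : Sq (fun j => b (j + 1)) := sq_shift hb 1
  have n1 : n2 (fun j => b (j + 1)) ≤ θ := by
    have a1 := n2_add (sq_tr hb' k) (sq_sub_tr hb' k)
    have e1 : (fun j => tr k (fun j => b (j + 1)) j +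
        ((fun j => b (j + 1)) j - tr k (fun j => b (j + 1)) j)) = fun j => b (j + 1) := by
      funext j
      ring
    rw [e1] at a1
    have a2 : n2 (tr k fun j => b (j + 1)) ≤ θ / 4 := by
      rw [n2_tr_eq]
      refine le_trans ?_ hη1
      unfold nm
      apply Real.sqrt_le_iff.2 ⟨by positivity, ?_⟩
      calc ∑ i ∈ Finset.range k, ‖b (i + 1)‖ ^ 2 ≤ ∑ i ∈ Finset.range k, η ^ 2 := by
            apply Finset.sum_le_sum
            intro i hi
            rw [Finset.mem_range] at hi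
            have h1 := hcon (i + 1) hi
            rw [← hRK i] at h1
            have h2 := norm_nonneg (b (i + 1))
            gcongr
        _ = k * η ^ 2 := by simp
        _ ≤ (((k : ℝ) + 1) * η) ^ 2 := by
            have h3 : (0 : ℝ) ≤ k := by positivity
            nlinarith [mul_nonneg h3 (sq_nonneg η), mul_nonneg (mul_nonneg h3 h3) (sq_nonneg η),
              sq_nonneg η]
    have a3 : n2 (fun j => (fun j => b (j + 1)) j - tr k (fun j => b (j + 1)) j) ≤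
        θ / 4 + θ / 4 := by
      apply n2_le (by positivity)
      rw [tail_eq hb' k, ← n2_sq]
      have e2 : (fun j => b (j + k + 1)) = fun j => g (j + (k + 1)) + d (j + (k + 1)) := by
        funext j
        rw [hRK (j + k), hgd, add_assoc]
      have a4 : n2 (fun j => b (j + k + 1)) ≤ θ / 4 + θ / 4 := by
        rw [e2]
        refine (n2_add (sq_shift hgs (k + 1)) (sq_shift hds (k + 1))).trans (add_le_add ?_ ?_)
        · apply n2_le (by positivity)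
          refine le_trans ?_ hk
          refine Summable.tsum_le_tsum (fun j => ?_) (sq_shift hgs (k + 1))
            ((summable_nat_add_iff (f := fun j => ∑' i, ‖F i j‖ ^ 2) (k + 1)).2 hc)
          have h5 := act_sq_le (HS_sw hF) hb (j + (k + 1))
          rw [hb1, one_pow, mul_one] at h5
          rw [hg]
          exact h5
        · exact (n2_shift_le hds (k + 1)).trans (hdn.trans hκ1)
      have h6 := n2_nonneg (fun j => b (j + k + 1))
      exact pow_le_pow_left₀ h6 a4 2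
    linarith
  have hb0 : ‖b 0‖ ^ 2 + n2 (fun j => b (j + 1)) ^ 2 = 1 := by
    have h1 := Summable.sum_add_tsum_nat_add (f := fun j => ‖b j‖ ^ 2) 1 hb
    have h2 := n2_sq b
    rw [hb1] at h2
    rw [n2_sq]
    simp only [Finset.sum_range_one] at h1
    linarith
  have hb2 : 1 / 2 ≤ ‖b 0‖ := by
    have h1 := n2_nonneg (fun j => b (j + 1))
    have h2 : n2 (fun j => b (j + 1)) ^ 2 ≤ (1 / 2) ^ 2 := pow_le_pow_left₀ h1 (n1.trans hθ1) 2
    by_contra h3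
    push Not at h3
    have h4 : ‖b 0‖ ^ 2 < (1 / 2) ^ 2 := pow_lt_pow_left₀ h3 (norm_nonneg _) (by norm_num)
    linarith
  have hg0 : g 0 = F 0 0 * b 0 + ∑' i, F (i + 1) 0 * b (i + 1) := by
    rw [hg]
    unfold act sw
    exact (summ (col hF 0) hb).tsum_eq_zero_add
  have hrest : ‖∑' i, F (i + 1) 0 * b (i + 1)‖ ≤ R * θ := by
    refine (cs (sq_shift (col hF 0) 1) hb').trans ?_
    have h1 := n2_shift_le (col hF 0) 1
    rw [← hR] at h1
    exact mul_le_mul h1 n1 (n2_nonneg _) hR0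
  have h1 := hcon 0 (Nat.zero_le k)
  rw [hgd 0, hg0] at h1
  have h2 : ‖F 0 0 * b 0‖ ≤ ‖F 0 0 * b 0 + ∑' i, F (i + 1) 0 * b (i + 1) + d 0‖ +
      ‖∑' i, F (i + 1) 0 * b (i + 1)‖ + ‖d 0‖ := by
    have e : F 0 0 * b 0 = (F 0 0 * b 0 + ∑' i, F (i + 1) 0 * b (i + 1) + d 0) -
        ∑' i, F (i + 1) 0 * b (i + 1) - d 0 := by ring
    calc ‖F 0 0 * b 0‖ = ‖(F 0 0 * b 0 + ∑' i, F (i + 1) 0 * b (i + 1) + d 0) -
        ∑' i, F (i + 1) 0 * b (i + 1) - d 0‖ := by rw [← e]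
      _ ≤ _ := (norm_sub_le _ _).trans (add_le_add (norm_sub_le _ _) le_rfl)
  have h3 : ‖d 0‖ ≤ κ := (coord hds 0).trans hdn
  rw [norm_mul, ← hs] at h2
  have h4 : s * (1 / 2) ≤ s * ‖b 0‖ := mul_le_mul_of_nonneg_left hb2 hs0.le
  nlinarith

end Pool.Agent.H84.LP
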