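import Pool.Agent.H26.LP.Stm
import Pool.Graph.R_pool_sql_team_seeded_3997aac3.Q16.TR.L2B

/-! Project LP (helper26), module EVP: the functional is an eigenvector for all polynomials. -/

set_option autoImplicit false

namespace Pool.Agent.H84.LP

open MeasureTheory Filter Topology
open Pool.Agent.Q130.TR Pool.Agent.Q16.TR.L2B Pool.Agent.H26.LP

theorem evp : S_EVP := by
  intro E _ _ T c x C₀ h y p
  induction p using Polynomial.induction_on generalizing y with
  | C a =>
    have e : Polynomial.aeval T (Polynomial.C a) y = a • y := by
      rw [Polynomial.aeval_C, Algebra.algebraMap_eq_smul_one]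
      rfl
    rw [e]
    filter_upwards [h.smul a y] with z hz b hb hr
    simp only [hz, mul_assoc, tsum_mul_left, Polynomial.eval_C]
  | add p q hp hq =>
    have e : Polynomial.aeval T (p + q) y = Polynomial.aeval T p y + Polynomial.aeval T q y := by
      rw [map_add]
      rfl
    rw [e]
    filter_upwards [hp y, hq y, h.add (Polynomial.aeval T p y) (Polynomial.aeval T q y),
      h.sq (Polynomial.aeval T p y), h.sq (Polynomial.aeval T q y)] with z h1 h2 h3 h4 h5 b hb hr
    have e1 : ∑' i, c i (Polynomial.aeval T p y + Polynomial.aeval T q y) z * b i =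
        ∑' i, c i (Polynomial.aeval T p y) z * b i + ∑' i, c i (Polynomial.aeval T q y) z * b i := by
      rw [← Summable.tsum_add (summ h4 hb) (summ h5 hb)]
      apply tsum_congr
      intro i
      rw [h3 i, add_mul]
    rw [e1, h1 b hb hr, h2 b hb hr, Polynomial.eval_add, add_mul]
  | monomial n a hn =>
    have e : Polynomial.aeval T (Polynomial.C a * Polynomial.X ^ (n + 1)) y =
        Polynomial.aeval T (Polynomial.C a * Polynomial.X ^ n) (T y) := by
      rw [pow_succ, ← mul_assoc, map_mul, Polynomial.aeval_X]
      rfl
    rw [e]
    filter_upwards [hn (T y), h.eig y] with z h1 h2 b hb hr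
    rw [h1 b hb hr, h2 b hb hr]
    simp only [Polynomial.eval_mul, Polynomial.eval_C, Polynomial.eval_pow, Polynomial.eval_X]
    ring

end Pool.Agent.H84.LP
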